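import Pool.Agent.H295R3.NA.Stmts
import Pool.Agent.Helper601.Mertens

/-! Tasks MAP1 and MAP2 of project H295-NA (MP_d8321d_nt): Mertens' theorem for the residue class
`-1` modulo small moduli, from the prime number theorem in progressions. -/

set_option autoImplicit false

open Finset Filter Topology

namespace Pool.Agent.H554R3.NAMap

open Pool.Agent.H295R3.NA

/-- sum over the primes up to `n` -/
noncomputable def PS (n : ℕ) : ℝ := ∑ p ∈ (Icc 1 n).filter Nat.Prime, (1 : ℝ) / p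

lemma RS_small (r : ℕ) (hr : 1 ≤ r) (Y : ℕ) :
    RS r Y ≤ 2 / r * (1 + Real.log ((Y + 1 : ℕ) : ℝ)) := by
  classical
  have hr0 : (0:ℝ) < r := by exact_mod_cast hr
  unfold RS
  set F := (Icc 1 Y).filter (fun q : ℕ => q.Prime ∧ r ∣ q + 1) with hF
  have hmem : ∀ q ∈ F, 1 ≤ q ∧ q ≤ Y ∧ r ∣ q + 1 := by
    intro q hq
    rw [hF, mem_filter, mem_Icc] at hq
    exact ⟨hq.1.1, hq.1.2, hq.2.2⟩
  have hinj : Set.InjOn (fun q : ℕ => (q + 1) / r) F := by
    intro a ha b hb hab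
    have h1 := Nat.div_mul_cancel (hmem a ha).2.2
    have h2 := Nat.div_mul_cancel (hmem b hb).2.2
    simp only at hab
    rw [hab] at h1
    omega
  calc ∑ q ∈ F, (1:ℝ) / q ≤ ∑ q ∈ F, 2 / (r:ℝ) * (1 / (((q + 1) / r : ℕ) : ℝ)) := by
        refine sum_le_sum fun q hq => ?_
        obtain ⟨h1, h2, h3⟩ := hmem q hq
        obtain ⟨k, hk⟩ := h3
        have hk0 : 0 < k := by
          rcases Nat.eq_zero_or_pos k with h | h
          · subst h; omega
          · exact h
        have hdiv : (q + 1) / r = k := by rw [hk]; exact Nat.mul_div_cancel_left k hr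
        rw [hdiv]
        have hq0 : (1:ℝ) ≤ q := by exact_mod_cast h1
        have hk1 : (0:ℝ) < k := by exact_mod_cast hk0
        have hk' : (q:ℝ) + 1 = r * k := by exact_mod_cast hk
        have : 2 / (r:ℝ) * (1 / (k:ℝ)) = 2 / ((q:ℝ) + 1) := by
          rw [hk']; field_simp
        rw [this, div_le_div_iff₀ (by linarith) (by linarith)]
        linarith
    _ = ∑ m ∈ F.image (fun q : ℕ => (q + 1) / r), 2 / (r:ℝ) * (1 / (m:ℝ)) := by
        rw [sum_image hinj]
    _ ≤ ∑ m ∈ Icc 1 (Y+1), 2 / (r:ℝ) * (1 / (m:ℝ)) := by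
        refine sum_le_sum_of_subset_of_nonneg ?_ (fun _ _ _ => by positivity)
        intro m hm
        rw [mem_image] at hm
        obtain ⟨q, hq, rfl⟩ := hm
        obtain ⟨h1, h2, h3⟩ := hmem q hq
        rw [mem_Icc]
        constructor
        · exact Nat.div_pos (Nat.le_of_dvd (by omega) h3) hr
        · exact (Nat.div_le_self _ _).trans (by omega)
    _ = 2 / r * ∑ m ∈ Icc 1 (Y+1), (1 / (m:ℝ)) := by rw [mul_sum]
    _ ≤ _ := by
        refine mul_le_mul_of_nonneg_left ?_ (by positivity)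
        have h := harmonic_le_one_add_log (Y+1)
        rw [harmonic_eq_sum_Icc] at h
        push_cast at h ⊢
        simpa [one_div] using h

lemma filt_succ (p : ℕ → Prop) [DecidablePred p] (f : ℕ → ℝ) (n : ℕ) :
    ∑ q ∈ (Icc 1 (n + 1)).filter p, f q = ∑ q ∈ (Icc 1 n).filter p, f q +
      if p (n + 1) then f (n + 1) else 0 := by
  rw [sum_filter, sum_filter, sum_Icc_succ_top (by omega)]

lemma RS_succ (r n : ℕ) : RS r (n + 1) = RS r n +
    if ((n + 1).Prime ∧ r ∣ n + 1 + 1) then (1:ℝ) / ((n + 1 : ℕ) : ℝ) else 0 := by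
  unfold RS
  rw [filt_succ]

lemma PS_succ (n : ℕ) : PS (n + 1) = PS n +
    if (n + 1).Prime then (1:ℝ) / ((n + 1 : ℕ) : ℝ) else 0 := by
  unfold PS
  rw [filt_succ]

lemma pi1_succ (n : ℕ) : H343E.pi1 (n + 1) = H343E.pi1 n +
    if (n + 1).Prime then (1:ℝ) else 0 := by
  have h := filt_succ (fun p => p.Prime) (fun _ => (1:ℝ)) n
  unfold H343E.pi1
  simpa using h

lemma modEq_iff (r : ℕ) (hr : 1 ≤ r) (q : ℕ) : q ≡ r - 1 [MOD r] ↔ r ∣ q + 1 := by
  constructor
  · intro h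
    have h1 : q + 1 ≡ r - 1 + 1 [MOD r] := h.add_right 1
    rw [Nat.sub_add_cancel hr] at h1
    have h2 : r ≡ 0 [MOD r] := (Nat.modEq_zero_iff_dvd).2 dvd_rfl
    exact (Nat.modEq_zero_iff_dvd).1 (h1.trans h2)
  · intro h
    have h1 : q + 1 ≡ 0 [MOD r] := (Nat.modEq_zero_iff_dvd).2 h
    have h2 : r ≡ 0 [MOD r] := (Nat.modEq_zero_iff_dvd).2 dvd_rfl
    have h3 : q + 1 ≡ r - 1 + 1 [MOD r] := by
      rw [Nat.sub_add_cancel hr]; exact h1.trans h2.symm
    exact Nat.ModEq.add_right_cancel' 1 h3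

lemma piAP_succ (r : ℕ) (hr : 1 ≤ r) (n : ℕ) : H343E.piAP (n + 1) r (r - 1) =
    H343E.piAP n r (r - 1) + if ((n + 1).Prime ∧ r ∣ n + 1 + 1) then (1:ℝ) else 0 := by
  have h := filt_succ (fun p => p.Prime ∧ p ≡ r - 1 [MOD r]) (fun _ => (1:ℝ)) n
  unfold H343E.piAP
  simp only [modEq_iff r hr] at h ⊢
  simpa using h

/-- the discrepancy -/
noncomputable def DD (r n : ℕ) : ℝ := H343E.piAP n r (r - 1) - H343E.pi1 n / (Nat.totient r : ℝ)

/-- the discrepancy of the reciprocal sums -/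
noncomputable def TT (r n : ℕ) : ℝ := RS r n - PS n / (Nat.totient r : ℝ)

lemma TT_succ (r : ℕ) (hr : 1 ≤ r) (n : ℕ) :
    TT r (n + 1) = TT r n + (DD r (n + 1) - DD r n) / ((n + 1 : ℕ) : ℝ) := by
  unfold TT DD
  rw [RS_succ, PS_succ, piAP_succ r hr, pi1_succ]
  by_cases h1 : (n + 1).Prime <;> by_cases h2 : r ∣ n + 1 + 1 <;> simp [h1, h2] <;> ring

lemma step_bound (n : ℕ) (hn : 3 ≤ n) (hl : 1 ≤ Real.log n) :
    1 / (((n + 1 : ℕ) : ℝ) * Real.log n ^ 6) ≤
      2 * (1 / Real.log n - 1 / Real.log ((n + 1 : ℕ) : ℝ)) := by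
  have hn0 : (3:ℝ) ≤ n := by exact_mod_cast hn
  set a := Real.log n with ha
  set b := Real.log ((n + 1 : ℕ) : ℝ) with hb
  have hab : a ≤ b := Real.log_le_log (by linarith) (by push_cast; linarith)
  have hb0 : 0 < b := by linarith
  have hdiff : 1 / ((n + 1 : ℕ) : ℝ) ≤ b - a := by
    have h1 := Real.one_sub_inv_le_log_of_pos (x := ((n + 1 : ℕ) : ℝ) / n) (by positivity)
    rw [Real.log_div (by positivity) (by positivity)] at h1
    rw [inv_div] at h1
    have h2 : 1 - (n:ℝ) / ((n + 1 : ℕ) : ℝ) = 1 / ((n + 1 : ℕ) : ℝ) := by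
      push_cast; field_simp; ring
    linarith
  have hb2 : b ≤ 2 * a := by
    have h1 : ((n + 1 : ℕ) : ℝ) ≤ (n:ℝ) ^ 2 := by push_cast; nlinarith
    have h2 : b ≤ Real.log ((n:ℝ) ^ 2) := Real.log_le_log (by positivity) h1
    rw [Real.log_pow] at h2
    push_cast at h2
    exact h2
  have ha0 : 0 < a := by linarith
  have e1 : 1 / a - 1 / b = (b - a) / (a * b) := by field_simp
  rw [e1]
  have hN : (0:ℝ) < ((n + 1 : ℕ) : ℝ) := by positivity
  calc 1 / (((n + 1 : ℕ) : ℝ) * a ^ 6) = (1 / ((n + 1 : ℕ) : ℝ)) * (1 / a ^ 6) := by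
        field_simp
    _ ≤ (b - a) * (2 / (a * b)) := by
        refine mul_le_mul hdiff ?_ (by positivity) (by linarith)
        rw [div_le_div_iff₀ (by positivity) (by positivity)]
        have h3 : a * b ≤ a * (2 * a) := mul_le_mul_of_nonneg_left hb2 ha0.le
        have h4 : a ^ 2 ≤ a ^ 6 := pow_le_pow_right₀ hl (by norm_num)
        nlinarith
    _ = 2 * ((b - a) / (a * b)) := by ring

lemma abel (r : ℕ) (hr : 1 ≤ r) (M : ℕ) (hM : 3 ≤ M) (hl : 1 ≤ Real.log M)
    (hD : ∀ n : ℕ, M ≤ n → |DD r n| ≤ n / Real.log n ^ 6) (N : ℕ) (hN : M ≤ N) :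
    |TT r N - TT r M - DD r N / N + DD r M / M| ≤ 2 * (1 / Real.log M - 1 / Real.log N) := by
  induction N, hN using Nat.le_induction with
  | base => simp
  | succ N hN ih =>
    have hN3 : 3 ≤ N := hM.trans hN
    have hNr : (3:ℝ) ≤ N := by exact_mod_cast hN3
    have hlN : 1 ≤ Real.log N := hl.trans (Real.log_le_log (by exact_mod_cast (by omega : 0 < M))
      (by exact_mod_cast hN))
    have hs := step_bound N hN3 hlN
    have e : TT r (N + 1) - TT r M - DD r (N + 1) / ((N + 1 : ℕ) : ℝ) + DD r M / M =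
        (TT r N - TT r M - DD r N / N + DD r M / M) + DD r N * (1 / (N * ((N + 1 : ℕ) : ℝ))) := by
      rw [TT_succ r hr]
      have : (0:ℝ) < N := by linarith
      push_cast
      field_simp
      ring
    rw [e]
    refine (abs_add_le _ _).trans ?_
    have h2 : |DD r N * (1 / (N * ((N + 1 : ℕ) : ℝ)))| ≤ 1 / (((N + 1 : ℕ) : ℝ) * Real.log N ^ 6) := by
      rw [abs_mul, abs_of_nonneg (by positivity : (0:ℝ) ≤ 1 / (N * ((N + 1 : ℕ) : ℝ)))]
      calc |DD r N| * (1 / (N * ((N + 1 : ℕ) : ℝ))) ≤ (N / Real.log N ^ 6) * (1 / (N * ((N + 1 : ℕ) : ℝ))) :=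
            mul_le_mul_of_nonneg_right (hD N hN) (by positivity)
        _ = 1 / (((N + 1 : ℕ) : ℝ) * Real.log N ^ 6) := by
            have : (0:ℝ) < N := by linarith
            have : (0:ℝ) < Real.log N := by linarith
            field_simp
    linarith

lemma abel' (r : ℕ) (hr : 1 ≤ r) (M : ℕ) (hM : 3 ≤ M) (hl : 1 ≤ Real.log M)
    (hD : ∀ n : ℕ, M ≤ n → |DD r n| ≤ n / Real.log n ^ 6) (N : ℕ) (hN : M ≤ N) :
    |TT r N - TT r M| ≤ 4 / Real.log M := by
  have h := abel r hr M hM hl hD N hN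
  have hlN : Real.log M ≤ Real.log N := Real.log_le_log (by exact_mod_cast (by omega : 0 < M))
      (by exact_mod_cast hN)
  have hb : ∀ n : ℕ, M ≤ n → |DD r n / n| ≤ 1 / Real.log M := by
    intro n hn
    have hn0 : (0:ℝ) < n := by exact_mod_cast (by omega : 0 < n)
    have hln : Real.log M ≤ Real.log n := Real.log_le_log (by exact_mod_cast (by omega : 0 < M))
      (by exact_mod_cast hn)
    rw [abs_div, abs_of_pos hn0, div_le_div_iff₀ hn0 (by linarith)]
    have h1 := hD n hn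
    have h2 : (n:ℝ) / Real.log n ^ 6 ≤ n / Real.log M := by
      refine div_le_div_of_nonneg_left hn0.le (by linarith) ?_
      calc Real.log M ≤ Real.log n := hln
        _ = Real.log n ^ 1 := (pow_one _).symm
        _ ≤ Real.log n ^ 6 := pow_le_pow_right₀ (by linarith) (by norm_num)
    have h3 : |DD r n| * Real.log M ≤ n / Real.log M * Real.log M :=
      mul_le_mul_of_nonneg_right (h1.trans h2) (by linarith)
    rw [div_mul_cancel₀ _ (by linarith : Real.log M ≠ 0)] at h3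
    linarith
  have h1 := hb N hN
  have h2 := hb M le_rfl
  have h3 : 0 ≤ 1 / Real.log N := by
    have : 0 < Real.log N := by linarith
    positivity
  have e4 : 4 / Real.log M = 4 * (1 / Real.log M) := by ring
  rw [e4]
  rw [abs_le] at h h1 h2 ⊢
  constructor <;> linarith [h.1, h.2, h1.1, h1.2, h2.1, h2.2]

lemma tot_lower (r : ℕ) (hr : r.Prime ∨ r = 4) : (r : ℝ) / 2 ≤ (Nat.totient r : ℝ) := by
  rcases hr with h | h
  · rw [Nat.totient_prime h, Nat.cast_sub h.one_lt.le]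
    have : (2:ℝ) ≤ r := by exact_mod_cast h.two_le
    push_cast
    linarith
  · subst h
    have : Nat.totient 4 = 2 := by decide
    rw [this]; norm_num

theorem key (h : PAP) : ∃ C : ℝ, 0 < C ∧ ∃ x0 : ℕ, ∀ x : ℕ, x0 ≤ x → ∀ r : ℕ, (r.Prime ∨ r = 4) →
    (r : ℝ) ^ 2 ≤ 1000 * LL x → |RS r x - LL x / (Nat.totient r : ℝ)| ≤ C / √(r:ℝ) := by
  obtain ⟨x1, hx1⟩ := h
  obtain ⟨C1, hC1⟩ := Pool.Agent.Helper601.Mertens.mertens_inv
  have hC10 : 0 ≤ C1 := (abs_nonneg _).trans (hC1 3 le_rfl)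
  set K : ℝ := x1 + 2 with hK
  have hK2 : 2 ≤ K := by rw [hK]; have : (0:ℝ) ≤ x1 := by positivity
                         linarith
  -- size of `x`
  have hev : ∀ᶠ y : ℝ in atTop, 1000 * Real.log y + K + 1 ≤ y := by
    have h1 := Real.isLittleO_log_id_atTop.bound (by norm_num : (0:ℝ) < 1 / 2000)
    filter_upwards [h1, eventually_ge_atTop (2 * (K + 1)), eventually_ge_atTop 1] with y hy hy2 hy3
    simp only [id, Real.norm_eq_abs] at hy
    have h2 := le_abs_self (Real.log y)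
    rw [abs_of_nonneg (by linarith : (0:ℝ) ≤ y)] at hy
    linarith
  have hlogx : Tendsto (fun x : ℕ => Real.log (x:ℝ)) atTop atTop :=
    Real.tendsto_log_atTop.comp tendsto_natCast_atTop_atTop
  obtain ⟨x2, hx2⟩ := eventually_atTop.1 (hlogx.eventually hev)
  refine ⟨2 * (K + 4) + 4 + 2 * (K + 1 + 2 * C1), by positivity, max x2 3, fun x hx r hr hrx => ?_⟩
  have hxx2 : x2 ≤ x := (le_max_left _ _).trans hx
  have hxx3 : 3 ≤ x := (le_max_right _ _).trans hx
  have hr2 : 2 ≤ r := by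
    rcases hr with h | h
    · exact h.two_le
    · omega
  have hrr : (2:ℝ) ≤ r := by exact_mod_cast hr2
  set s := √(r:ℝ) with hs
  have hs1 : 1 ≤ s := by rw [hs]; exact Real.one_le_sqrt.2 (by linarith)
  have hss : s * s = r := Real.mul_self_sqrt (by linarith)
  set M : ℕ := ⌈Real.exp (s + K)⌉₊ with hMdef
  have hM1 : Real.exp (s + K) ≤ M := Nat.le_ceil _
  have hexp3 : (8:ℝ) ≤ Real.exp (s + K) := by
    have h1 : Real.exp 3 ≤ Real.exp (s + K) := Real.exp_le_exp.2 (by linarith)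
    have h2 : (2.7:ℝ) ≤ Real.exp 1 := by have := Real.exp_one_gt_d9; linarith
    have h3 : Real.exp 3 = Real.exp 1 ^ 3 := by rw [← Real.exp_nat_mul]; norm_num
    have h4 : (2.7:ℝ) ^ 3 ≤ Real.exp 1 ^ 3 := pow_le_pow_left₀ (by norm_num) h2 3
    have h5 : (8:ℝ) ≤ (2.7:ℝ) ^ 3 := by norm_num
    linarith
  have hM3 : 3 ≤ M := by
    have : (3:ℝ) ≤ M := by linarith
    exact_mod_cast this
  have hMx1 : x1 ≤ M := by
    have h1 := Real.add_one_le_exp (s + K)
    have : (x1:ℝ) ≤ M := by rw [hK] at h1 hM1; linarith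
    exact_mod_cast this
  have hM2 : (M:ℝ) + 1 ≤ Real.exp (s + K + 1) := by
    have h1 : (M:ℝ) < Real.exp (s + K) + 1 := Nat.ceil_lt_add_one (Real.exp_pos _).le
    have h2 : Real.exp (s + K + 1) = Real.exp (s + K) * Real.exp 1 := Real.exp_add _ _
    have h3 : (2:ℝ) ≤ Real.exp 1 := by have := Real.exp_one_gt_d9; linarith
    rw [h2]
    nlinarith
  have hMpos : (0:ℝ) < M := by linarith
  have hlogM1 : s + K ≤ Real.log M := by
    rw [Real.le_log_iff_exp_le hMpos]; exact hM1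
  have hlogM2 : Real.log ((M + 1 : ℕ) : ℝ) ≤ s + K + 1 := by
    rw [Real.log_le_iff_le_exp (by positivity)]; push_cast; exact hM2
  have hlogM3 : Real.log M ≤ s + K + 1 := by
    refine le_trans (Real.log_le_log hMpos ?_) hlogM2
    push_cast; linarith
  have hMx : M ≤ x := by
    have h1 := hx2 x hxx2
    have h2 : s ≤ 1000 * Real.log (Real.log x) := by
      have h3 : s ≤ r := by nlinarith
      have h4 : (r:ℝ) ≤ r ^ 2 := by nlinarith
      have h5 : (r:ℝ) ^ 2 ≤ 1000 * Real.log (Real.log x) := hrx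
      linarith
    have h3 : s + K + 1 ≤ Real.log x := by linarith
    have hx0 : (0:ℝ) < x := by exact_mod_cast (by omega : 0 < x)
    rw [Real.le_log_iff_exp_le hx0] at h3
    have : (M:ℝ) ≤ x := by linarith
    exact_mod_cast this
  have hD : ∀ n : ℕ, M ≤ n → |DD r n| ≤ n / Real.log n ^ 6 := by
    intro n hn
    have hln : Real.log M ≤ Real.log n := Real.log_le_log hMpos (by exact_mod_cast hn)
    refine hx1 n (hMx1.trans hn) r (by omega) ?_ (r - 1) (by omega) ?_
    · have h1 : s ≤ Real.log n := by linarith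
      have h2 : s * s ≤ Real.log n * Real.log n := mul_self_le_mul_self (by linarith) h1
      rw [hss] at h2
      rw [sq]; exact h2
    · have h1 : Nat.Coprime (r - 1) (r - 1 + 1) := by simp
      rwa [Nat.sub_add_cancel (by omega : 1 ≤ r)] at h1
  have hl1 : 1 ≤ Real.log M := by linarith
  have hA := abel' r (by omega) M hM3 hl1 hD x hMx
  have hS := RS_small r (by omega) M
  have hS0 : 0 ≤ RS r M := by
    unfold RS
    exact sum_nonneg fun q _ => by positivity
  have hP1 := hC1 x hxx3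
  have hP2 := hC1 M hM3
  change |PS x - LL x| ≤ C1 at hP1
  change |PS M - LL M| ≤ C1 at hP2
  have hφ := tot_lower r hr
  set φ : ℝ := (Nat.totient r : ℝ) with hφdef
  have hφ0 : 0 < φ := by linarith
  have hLLM0 : 0 ≤ LL M := Real.log_nonneg hl1
  have hLLM1 : LL M ≤ s + K := by
    have := Real.log_le_sub_one_of_pos (by linarith : 0 < Real.log M)
    unfold LL; linarith
  -- assemble
  have e1 : RS r x - LL x / φ = (TT r x - TT r M) + RS r M + ((PS x - LL x) - (PS M - LL M) - LL M) / φ := by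
    unfold TT
    rw [← hφdef]
    field_simp
    ring
  have hs0 : 0 < s := by linarith
  have b1 : |TT r x - TT r M| ≤ 4 / s := by
    refine hA.trans (div_le_div_of_nonneg_left (by norm_num) hs0 (by linarith))
  have b2 : |RS r M| ≤ 2 * (K + 4) / s := by
    rw [abs_of_nonneg hS0]
    refine hS.trans ?_
    rw [← hss, div_mul_eq_mul_div, div_le_div_iff₀ (by positivity) hs0]
    have h1 : 1 + Real.log ((M + 1 : ℕ) : ℝ) ≤ (K + 4) * s := by
      have : (K + 3) * 1 ≤ (K + 3) * s := mul_le_mul_of_nonneg_left hs1 (by linarith)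
      nlinarith
    calc 2 * (1 + Real.log ((M + 1 : ℕ) : ℝ)) * s ≤ 2 * ((K + 4) * s) * s := by
          refine mul_le_mul_of_nonneg_right ?_ hs0.le
          linarith
      _ = 2 * (K + 4) * (s * s) := by ring
  have b3 : |((PS x - LL x) - (PS M - LL M) - LL M) / φ| ≤ 2 * (K + 1 + 2 * C1) / s := by
    rw [abs_div, abs_of_pos hφ0]
    have h1 : |(PS x - LL x) - (PS M - LL M) - LL M| ≤ (K + 1 + 2 * C1) * s := by
      have h2 : |(PS x - LL x) - (PS M - LL M) - LL M| ≤ 2 * C1 + (s + K) := by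
        rw [abs_le] at hP1 hP2 ⊢
        constructor <;> linarith [hP1.1, hP1.2, hP2.1, hP2.2]
      have h3 : (K + 2 * C1) * 1 ≤ (K + 2 * C1) * s := mul_le_mul_of_nonneg_left hs1 (by linarith)
      nlinarith
    rw [div_le_div_iff₀ hφ0 hs0]
    calc |(PS x - LL x) - (PS M - LL M) - LL M| * s ≤ (K + 1 + 2 * C1) * s * s :=
          mul_le_mul_of_nonneg_right h1 hs0.le
      _ = 2 * (K + 1 + 2 * C1) * ((s * s) / 2) := by ring
      _ ≤ 2 * (K + 1 + 2 * C1) * φ := by
          refine mul_le_mul_of_nonneg_left ?_ (by linarith)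
          rw [hss]; exact hφ
  rw [e1]
  have e2 : (2 * (K + 4) + 4 + 2 * (K + 1 + 2 * C1)) / s =
      4 / s + 2 * (K + 4) / s + 2 * (K + 1 + 2 * C1) / s := by ring
  rw [e2]
  refine (abs_add_le _ _).trans ?_
  refine add_le_add ?_ b3
  refine (abs_add_le _ _).trans ?_
  exact add_le_add b1 b2

theorem taskMAP1 : Pool.Agent.H295R3.NA.TaskMAP1 := by
  intro h
  obtain ⟨C, hC, x0, hx0⟩ := key h
  refine ⟨C, x0, hC, fun x hx r hr hrx => (hx0 x hx r hr hrx).trans ?_⟩
  have hr2 : (1:ℝ) ≤ r := by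
    rcases hr with h | h
    · exact_mod_cast h.one_lt.le
    · subst h; norm_num
  have hs1 : 1 ≤ √(r:ℝ) := Real.one_le_sqrt.2 hr2
  exact div_le_self hC.le hs1

theorem taskMAP2 : Pool.Agent.H295R3.NA.TaskMAP2 := by
  intro h ε hε
  obtain ⟨C, hC, x0, hx0⟩ := key h
  refine ⟨⌈(C / ε) ^ 2⌉₊ + 1, x0, fun x hx l hl hl0 hlx => ?_⟩
  have h1 := hx0 x hx l (Or.inl hl) hlx
  rw [Nat.totient_prime hl, Nat.cast_sub hl.one_lt.le] at h1
  push_cast at h1
  refine h1.trans ?_
  have h2 : (C / ε) ^ 2 ≤ l := by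
    have h3 := Nat.le_ceil ((C / ε) ^ 2)
    have h4 : ((⌈(C / ε) ^ 2⌉₊ + 1 : ℕ) : ℝ) ≤ l := by exact_mod_cast hl0
    push_cast at h4
    linarith
  have h3 : C / ε ≤ √(l:ℝ) := Real.le_sqrt_of_sq_le h2
  have hl1 : (0:ℝ) < l := by exact_mod_cast hl.pos
  have hs0 : 0 < √(l:ℝ) := Real.sqrt_pos.2 hl1
  rw [div_le_iff₀ hs0]
  rw [div_le_iff₀ hε] at h3
  linarith

end Pool.Agent.H554R3.NAMap
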